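import Pool.Agent.NG5c.ASModel
import Pool.Agent.NG5c.As.B0002
import Pool.Agent.NG5c.As.B0002s0
import Pool.Agent.NG5c.As.B0002s1
import Pool.Agent.NG5c.As.B0002s2
import Pool.Agent.NG5c.As.B0002s3
import Pool.Agent.NG5c.As.B0002s4
import Pool.Agent.NG5c.As.B0003
import Pool.Agent.NG5c.As.B0003s0
import Pool.Agent.NG5c.As.B0003s1
import Pool.Agent.NG5c.As.B0003s2
import Pool.Agent.NG5c.As.B0003s3
import Pool.Agent.NG5c.As.B0003s4
import Pool.Agent.NG5c.As.B0004
import Pool.Agent.NG5c.As.B0004s0
import Pool.Agent.NG5c.As.B0004s1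
import Pool.Agent.NG5c.As.B0004s2
import Pool.Agent.NG5c.As.B0004s3
import Pool.Agent.NG5c.As.B0004s4
import Pool.Agent.NG5c.As.B0005
import Pool.Agent.NG5c.As.B0005s0
import Pool.Agent.NG5c.As.B0005s1
import Pool.Agent.NG5c.As.B0005s2
import Pool.Agent.NG5c.As.B0005s3
import Pool.Agent.NG5c.As.B0006
import Pool.Agent.NG5c.As.B0006s0
import Pool.Agent.NG5c.As.B0006s1
import Pool.Agent.NG5c.As.B0006s2
import Pool.Agent.NG5c.As.B0006s3
import Pool.Agent.NG5c.As.B0007
import Pool.Agent.NG5c.As.B0007s0
import Pool.Agent.NG5c.As.B0007s1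
import Pool.Agent.NG5c.As.B0007s2
import Pool.Agent.NG5c.As.B0008
import Pool.Agent.NG5c.As.B0008s0
import Pool.Agent.NG5c.As.B0008s1
import Pool.Agent.NG5c.As.B0008s2
import Pool.Agent.NG5c.As.B0008s3
import Pool.Agent.NG5c.As.B0009
import Pool.Agent.NG5c.As.B0009s0
import Pool.Agent.NG5c.As.B0009s1
import Pool.Agent.NG5c.As.B0009s2
import Pool.Agent.NG5c.As.B0010
import Pool.Agent.NG5c.As.B0010s0
import Pool.Agent.NG5c.As.B0010s1
import Pool.Agent.NG5c.As.B0011
import Pool.Agent.NG5c.As.B0011s0
import Pool.Agent.NG5c.As.B0011s1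
import Pool.Agent.NG5c.As.B0012
import Pool.Agent.NG5c.As.B0012s0
import Pool.Agent.NG5c.As.B0012s1
import Pool.Agent.NG5c.As.D000
import Pool.Agent.NG5c.As.D001
import Pool.Agent.NG5c.As.D005
import Pool.Agent.NG5c.As.D008
import Pool.Agent.NG5c.As.D010
import Pool.Agent.NG5c.As.D012
import Pool.Agent.NG5c.As.D013
import Pool.Agent.NG5c.As.D014
import Pool.Agent.NG5c.As.D015

set_option autoImplicit false
set_option maxRecDepth 100000

namespace Pool.Agent.NG5c

theorem c0002 : CubeFalse (75368, 780029) :=
  cubeFalse_of _ c0002Z (by decide +kernel) (fun _ _ _ C => allSat_false (run13_sound C c0002t10 (run13_sound C c0002t9 (run13_sound C c0002t8 (run13_sound C c0002t7 (run13_sound C c0002t6 (run13_sound C c0002t5 (run13_sound C c0002t4 (run13_sound C c0002t3 (run13_sound C c0002t2 (run13_sound C c0002t1 allSat_nil)))))))))) (by decide +kernel))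

theorem c0003 : CubeFalse (90308, 652797) :=
  cubeFalse_of _ c0003Z (by decide +kernel) (fun _ _ _ C => allSat_false (run13_sound C c0003t10 (run13_sound C c0003t9 (run13_sound C c0003t8 (run13_sound C c0003t7 (run13_sound C c0003t6 (run13_sound C c0003t5 (run13_sound C c0003t4 (run13_sound C c0003t3 (run13_sound C c0003t2 (run13_sound C c0003t1 allSat_nil)))))))))) (by decide +kernel))

theorem c0004 : CubeFalse (79562, 786399) :=
  cubeFalse_of _ c0004Z (by decide +kernel) (fun _ _ _ C => allSat_false (run13_sound C c0004t9 (run13_sound C c0004t8 (run13_sound C c0004t7 (run13_sound C c0004t6 (run13_sound C c0004t5 (run13_sound C c0004t4 (run13_sound C c0004t3 (run13_sound C c0004t2 (run13_sound C c0004t1 allSat_nil))))))))) (by decide +kernel))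

theorem c0005 : CubeFalse (78502, 1047295) :=
  cubeFalse_of _ c0005Z (by decide +kernel) (fun _ _ _ C => allSat_false (run13_sound C c0005t7 (run13_sound C c0005t6 (run13_sound C c0005t5 (run13_sound C c0005t4 (run13_sound C c0005t3 (run13_sound C c0005t2 (run13_sound C c0005t1 allSat_nil))))))) (by decide +kernel))

theorem c0006 : CubeFalse (9068, 456703) :=
  cubeFalse_of _ c0006Z (by decide +kernel) (fun _ _ _ C => allSat_false (run13_sound C c0006t7 (run13_sound C c0006t6 (run13_sound C c0006t5 (run13_sound C c0006t4 (run13_sound C c0006t3 (run13_sound C c0006t2 (run13_sound C c0006t1 allSat_nil))))))) (by decide +kernel))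

theorem c0007 : CubeFalse (78472, 506799) :=
  cubeFalse_of _ c0007Z (by decide +kernel) (fun _ _ _ C => allSat_false (run12_sound C c0007t7 (run12_sound C c0007t6 (run12_sound C c0007t5 (run12_sound C c0007t4 (run12_sound C c0007t3 (run12_sound C c0007t2 (run12_sound C c0007t1 allSat_nil))))))) (by decide +kernel))

theorem c0008 : CubeFalse (93120, 1044464) :=
  cubeFalse_of _ c0008Z (by decide +kernel) (fun _ _ _ C => allSat_false (run12_sound C c0008t7 (run12_sound C c0008t6 (run12_sound C c0008t5 (run12_sound C c0008t4 (run12_sound C c0008t3 (run12_sound C c0008t2 (run12_sound C c0008t1 allSat_nil))))))) (by decide +kernel))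

theorem c0009 : CubeFalse (79532, 1048575) :=
  cubeFalse_of _ c0009Z (by decide +kernel) (fun _ _ _ C => allSat_false (run12_sound C c0009t7 (run12_sound C c0009t6 (run12_sound C c0009t5 (run12_sound C c0009t4 (run12_sound C c0009t3 (run12_sound C c0009t2 (run12_sound C c0009t1 allSat_nil))))))) (by decide +kernel))

theorem c0010 : CubeFalse (86730, 916479) :=
  cubeFalse_of _ c0010Z (by decide +kernel) (fun _ _ _ C => allSat_false (run12_sound C c0010t6 (run12_sound C c0010t5 (run12_sound C c0010t4 (run12_sound C c0010t3 (run12_sound C c0010t2 (run12_sound C c0010t1 allSat_nil)))))) (by decide +kernel))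

theorem c0011 : CubeFalse (74088, 1012607) :=
  cubeFalse_of _ c0011Z (by decide +kernel) (fun _ _ _ C => allSat_false (run12_sound C c0011t4 (run12_sound C c0011t3 (run12_sound C c0011t2 (run12_sound C c0011t1 allSat_nil)))) (by decide +kernel))

theorem c0012 : CubeFalse (76194, 1026547) :=
  cubeFalse_of _ c0012Z (by decide +kernel) (fun _ _ _ C => allSat_false (run12_sound C c0012t4 (run12_sound C c0012t3 (run12_sound C c0012t2 (run12_sound C c0012t1 allSat_nil)))) (by decide +kernel))

theorem c0013 : CubeFalse (75106, 1046503) :=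
  cubeFalse_of _ c0013Z (by decide +kernel) (fun _ _ _ C => allSat_false (run12_sound C c0013t3 (run12_sound C c0013t2 (run12_sound C c0013t1 allSat_nil))) (by decide +kernel))

theorem c0014 : CubeFalse (74890, 524015) :=
  cubeFalse_of _ c0014Z (by decide +kernel) (fun _ _ _ C => allSat_false (run12_sound C c0014t3 (run12_sound C c0014t2 (run12_sound C c0014t1 allSat_nil))) (by decide +kernel))

theorem c0015 : CubeFalse (81576, 917499) :=
  cubeFalse_of _ c0015Z (by decide +kernel) (fun _ _ _ C => allSat_false (run11_sound C c0015t3 (run11_sound C c0015t2 (run11_sound C c0015t1 allSat_nil))) (by decide +kernel))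

theorem c0017 : CubeFalse (80419, 1048247) :=
  cubeFalse_of _ c0017Z (by decide +kernel) (fun _ _ _ C => allSat_false (run11_sound C c0017t2 (run11_sound C c0017t1 allSat_nil)) (by decide +kernel))

theorem c0018 : CubeFalse (79522, 917502) :=
  cubeFalse_of _ c0018Z (by decide +kernel) (fun _ _ _ C => allSat_false (run11_sound C c0018t2 (run11_sound C c0018t1 allSat_nil)) (by decide +kernel))

theorem c0020 : CubeFalse (75746, 1048566) :=
  cubeFalse_of _ c0020Z (by decide +kernel) (fun _ _ _ C => allSat_false (run11_sound C c0020t2 (run11_sound C c0020t1 allSat_nil)) (by decide +kernel))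

theorem c0021 : CubeFalse (80706, 1048434) :=
  cubeFalse_of _ c0021Z (by decide +kernel) (fun _ _ _ C => allSat_false (run11_sound C c0021t2 (run11_sound C c0021t1 allSat_nil)) (by decide +kernel))

theorem c0022 : CubeFalse (80066, 490471) :=
  cubeFalse_of _ c0022Z (by decide +kernel) (fun _ _ _ C => allSat_false (run11_sound C c0022t2 (run11_sound C c0022t1 allSat_nil)) (by decide +kernel))

theorem c0023 : CubeFalse (77185, 1044381) :=
  cubeFalse_of _ c0023Z (by decide +kernel) (fun _ _ _ C => allSat_false (run11_sound C c0023t2 (run11_sound C c0023t1 allSat_nil)) (by decide +kernel))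

def cubesW00 : List (ℕ × ℕ) := [(75368, 780029), (90308, 652797), (79562, 786399), (78502, 1047295), (9068, 456703), (78472, 506799), (93120, 1044464), (79532, 1048575), (86730, 916479), (74088, 1012607), (76194, 1026547), (75106, 1046503), (74890, 524015), (81576, 917499), (80419, 1048247), (79522, 917502), (75746, 1048566), (80706, 1048434), (80066, 490471), (77185, 1044381)]

theorem w00 : ∀ c ∈ cubesW00, CubeFalse c := by
  simp only [cubesW00, List.forall_mem_cons]
  exact ⟨c0002, c0003, c0004, c0005, c0006, c0007, c0008, c0009, c0010, c0011, c0012, c0013, c0014, c0015, c0017, c0018, c0020, c0021, c0022, c0023, by simp⟩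

end Pool.Agent.NG5c
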