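import Pool.Agent.NG5c.ASModel
import Pool.Agent.NG5c.As.D006
import Pool.Agent.NG5c.As.D007
import Pool.Agent.NG5c.As.D008
import Pool.Agent.NG5c.As.D010
import Pool.Agent.NG5c.As.D011
import Pool.Agent.NG5c.As.D012
import Pool.Agent.NG5c.As.D013
import Pool.Agent.NG5c.As.D014
import Pool.Agent.NG5c.As.D015
import Pool.Agent.NG5c.As.D016
import Pool.Agent.NG5c.As.D017
import Pool.Agent.NG5c.As.D018
import Pool.Agent.NG5c.As.D019
import Pool.Agent.NG5c.As.D020
import Pool.Agent.NG5c.As.D021

set_option autoImplicit false
set_option maxRecDepth 100000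

namespace Pool.Agent.NG5c

theorem c0024 : CubeFalse (81026, 1047727) :=
  cubeFalse_of _ c0024Z (by decide +kernel) (fun _ _ _ C => allSat_false (run11_sound C c0024t2 (run11_sound C c0024t1 allSat_nil)) (by decide +kernel))

theorem c0025 : CubeFalse (66120, 1040125) :=
  cubeFalse_of _ c0025Z (by decide +kernel) (fun _ _ _ C => allSat_false (run11_sound C c0025t2 (run11_sound C c0025t1 allSat_nil)) (by decide +kernel))

theorem c0026 : CubeFalse (36, 432318) :=
  cubeFalse_of _ c0026Z (by decide +kernel) (fun _ _ _ C => allSat_false (run11_sound C c0026t2 (run11_sound C c0026t1 allSat_nil)) (by decide +kernel))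

theorem c0027 : CubeFalse (10028, 982847) :=
  cubeFalse_of _ c0027Z (by decide +kernel) (fun _ _ _ C => allSat_false (run11_sound C c0027t2 (run11_sound C c0027t1 allSat_nil)) (by decide +kernel))

theorem c0028 : CubeFalse (76876, 916685) :=
  cubeFalse_of _ c0028Z (by decide +kernel) (fun _ _ _ C => allSat_false (run11_sound C c0028t1 allSat_nil) (by decide +kernel))

theorem c0029 : CubeFalse (78437, 1045093) :=
  cubeFalse_of _ c0029Z (by decide +kernel) (fun _ _ _ C => allSat_false (run11_sound C c0029t1 allSat_nil) (by decide +kernel))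

theorem c0030 : CubeFalse (92076, 1044479) :=
  cubeFalse_of _ c0030Z (by decide +kernel) (fun _ _ _ C => allSat_false (run11_sound C c0030t1 allSat_nil) (by decide +kernel))

theorem c0031 : CubeFalse (96964, 1047533) :=
  cubeFalse_of _ c0031Z (by decide +kernel) (fun _ _ _ C => allSat_false (run11_sound C c0031t1 allSat_nil) (by decide +kernel))

theorem c0032 : CubeFalse (78500, 523247) :=
  cubeFalse_of _ c0032Z (by decide +kernel) (fun _ _ _ C => allSat_false (run11_sound C c0032t1 allSat_nil) (by decide +kernel))

theorem c0033 : CubeFalse (75240, 1048573) :=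
  cubeFalse_of _ c0033Z (by decide +kernel) (fun _ _ _ C => allSat_false (run10_sound C c0033t1 allSat_nil) (by decide +kernel))

theorem c0034 : CubeFalse (74126, 261630) :=
  cubeFalse_of _ c0034Z (by decide +kernel) (fun _ _ _ C => allSat_false (run10_sound C c0034t1 allSat_nil) (by decide +kernel))

theorem c0035 : CubeFalse (78123, 391487) :=
  cubeFalse_of _ c0035Z (by decide +kernel) (fun _ _ _ C => allSat_false (run10_sound C c0035t1 allSat_nil) (by decide +kernel))

theorem c0036 : CubeFalse (75203, 1048567) :=
  cubeFalse_of _ c0036Z (by decide +kernel) (fun _ _ _ C => allSat_false (run11_sound C c0036t1 allSat_nil) (by decide +kernel))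

theorem c0037 : CubeFalse (67380, 874359) :=
  cubeFalse_of _ c0037Z (by decide +kernel) (fun _ _ _ C => allSat_false (run11_sound C c0037t1 allSat_nil) (by decide +kernel))

theorem c0038 : CubeFalse (78012, 520703) :=
  cubeFalse_of _ c0038Z (by decide +kernel) (fun _ _ _ C => allSat_false (run11_sound C c0038t1 allSat_nil) (by decide +kernel))

theorem c0039 : CubeFalse (80488, 1048559) :=
  cubeFalse_of _ c0039Z (by decide +kernel) (fun _ _ _ C => allSat_false (run11_sound C c0039t1 allSat_nil) (by decide +kernel))

theorem c0040 : CubeFalse (65764, 987884) :=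
  cubeFalse_of _ c0040Z (by decide +kernel) (fun _ _ _ C => allSat_false (run11_sound C c0040t1 allSat_nil) (by decide +kernel))

theorem c0041 : CubeFalse (75208, 1048558) :=
  cubeFalse_of _ c0041Z (by decide +kernel) (fun _ _ _ C => allSat_false (run10_sound C c0041t1 allSat_nil) (by decide +kernel))

theorem c0042 : CubeFalse (75234, 1028094) :=
  cubeFalse_of _ c0042Z (by decide +kernel) (fun _ _ _ C => allSat_false (run10_sound C c0042t1 allSat_nil) (by decide +kernel))

theorem c0043 : CubeFalse (80546, 1047547) :=
  cubeFalse_of _ c0043Z (by decide +kernel) (fun _ _ _ C => allSat_false (run10_sound C c0043t1 allSat_nil) (by decide +kernel))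

def cubesW01 : List (ℕ × ℕ) := [(81026, 1047727), (66120, 1040125), (36, 432318), (10028, 982847), (76876, 916685), (78437, 1045093), (92076, 1044479), (96964, 1047533), (78500, 523247), (75240, 1048573), (74126, 261630), (78123, 391487), (75203, 1048567), (67380, 874359), (78012, 520703), (80488, 1048559), (65764, 987884), (75208, 1048558), (75234, 1028094), (80546, 1047547)]

theorem w01 : ∀ c ∈ cubesW01, CubeFalse c := by
  simp only [cubesW01, List.forall_mem_cons]
  exact ⟨c0024, c0025, c0026, c0027, c0028, c0029, c0030, c0031, c0032, c0033, c0034, c0035, c0036, c0037, c0038, c0039, c0040, c0041, c0042, c0043, by simp⟩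

end Pool.Agent.NG5c
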