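import Pool.Agent.NG5c.ASModel
import Pool.Agent.NG5c.As.D020
import Pool.Agent.NG5c.As.D021
import Pool.Agent.NG5c.As.D022
import Pool.Agent.NG5c.As.D023
import Pool.Agent.NG5c.As.D024
import Pool.Agent.NG5c.As.D025
import Pool.Agent.NG5c.As.D026
import Pool.Agent.NG5c.As.D027

set_option autoImplicit false
set_option maxRecDepth 100000

namespace Pool.Agent.NG5c

theorem c0044 : CubeFalse (103522, 374778) :=
  cubeFalse_of _ c0044Z (by decide +kernel) (fun _ _ _ C => allSat_false (run10_sound C c0044t1 allSat_nil) (by decide +kernel))

theorem c0045 : CubeFalse (76906, 1015806) :=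
  cubeFalse_of _ c0045Z (by decide +kernel) (fun _ _ _ C => allSat_false (run10_sound C c0045t1 allSat_nil) (by decide +kernel))

theorem c0046 : CubeFalse (73898, 1047019) :=
  cubeFalse_of _ c0046Z (by decide +kernel) (fun _ _ _ C => allSat_false (run10_sound C c0046t1 allSat_nil) (by decide +kernel))

theorem c0047 : CubeFalse (74809, 1047999) :=
  cubeFalse_of _ c0047Z (by decide +kernel) (fun _ _ _ C => allSat_false (run10_sound C c0047t1 allSat_nil) (by decide +kernel))

theorem c0048 : CubeFalse (4482, 923526) :=
  cubeFalse_of _ c0048Z (by decide +kernel) (fun _ _ _ C => allSat_false (run10_sound C c0048t1 allSat_nil) (by decide +kernel))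

theorem c0049 : CubeFalse (76972, 1031679) :=
  cubeFalse_of _ c0049Z (by decide +kernel) (fun _ _ _ C => allSat_false (run10_sound C c0049t1 allSat_nil) (by decide +kernel))

theorem c0050 : CubeFalse (74154, 1014783) :=
  cubeFalse_of _ c0050Z (by decide +kernel) (fun _ _ _ C => allSat_false (run10_sound C c0050t1 allSat_nil) (by decide +kernel))

theorem c0051 : CubeFalse (68698, 1040383) :=
  cubeFalse_of _ c0051Z (by decide +kernel) (fun _ _ _ C => allSat_false (run10_sound C c0051t1 allSat_nil) (by decide +kernel))

theorem c0052 : CubeFalse (76333, 1044095) :=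
  cubeFalse_of _ c0052Z (by decide +kernel) (fun _ _ _ C => allSat_false (run10_sound C c0052t1 allSat_nil) (by decide +kernel))

theorem c0053 : CubeFalse (218796, 1048575) :=
  cubeFalse_of _ c0053Z (by decide +kernel) (fun _ _ _ C => allSat_false (run10_sound C c0053t1 allSat_nil) (by decide +kernel))

theorem c0054 : CubeFalse (75170, 1048570) :=
  cubeFalse_of _ c0054Z (by decide +kernel) (fun _ _ _ C => allSat_false (run10_sound C c0054t1 allSat_nil) (by decide +kernel))

theorem c0055 : CubeFalse (74882, 390655) :=
  cubeFalse_of _ c0055Z (by decide +kernel) (fun _ _ _ C => allSat_false (run10_sound C c0055t1 allSat_nil) (by decide +kernel))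

theorem c0056 : CubeFalse (69990, 1037822) :=
  cubeFalse_of _ c0056Z (by decide +kernel) (fun _ _ _ C => allSat_false (run10_sound C c0056t1 allSat_nil) (by decide +kernel))

theorem c0057 : CubeFalse (79489, 522121) :=
  cubeFalse_of _ c0057Z (by decide +kernel) (fun _ _ _ C => allSat_false (run10_sound C c0057t1 allSat_nil) (by decide +kernel))

theorem c0058 : CubeFalse (79178, 524255) :=
  cubeFalse_of _ c0058Z (by decide +kernel) (fun _ _ _ C => allSat_false (run10_sound C c0058t1 allSat_nil) (by decide +kernel))

theorem c0059 : CubeFalse (73988, 1015142) :=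
  cubeFalse_of _ c0059Z (by decide +kernel) (fun _ _ _ C => allSat_false (run10_sound C c0059t1 allSat_nil) (by decide +kernel))

theorem c0060 : CubeFalse (78953, 1015023) :=
  cubeFalse_of _ c0060Z (by decide +kernel) (fun _ _ _ C => allSat_false (run10_sound C c0060t1 allSat_nil) (by decide +kernel))

theorem c0061 : CubeFalse (74534, 999423) :=
  cubeFalse_of _ c0061Z (by decide +kernel) (fun _ _ _ C => allSat_false (run10_sound C c0061t1 allSat_nil) (by decide +kernel))

theorem c0062 : CubeFalse (93379, 1048575) :=
  cubeFalse_of _ c0062Z (by decide +kernel) (fun _ _ _ C => allSat_false (run10_sound C c0062t1 allSat_nil) (by decide +kernel))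

theorem c0063 : CubeFalse (66499, 1035239) :=
  cubeFalse_of _ c0063Z (by decide +kernel) (fun _ _ _ C => allSat_false (run10_sound C c0063t1 allSat_nil) (by decide +kernel))

def cubesW02 : List (ℕ × ℕ) := [(103522, 374778), (76906, 1015806), (73898, 1047019), (74809, 1047999), (4482, 923526), (76972, 1031679), (74154, 1014783), (68698, 1040383), (76333, 1044095), (218796, 1048575), (75170, 1048570), (74882, 390655), (69990, 1037822), (79489, 522121), (79178, 524255), (73988, 1015142), (78953, 1015023), (74534, 999423), (93379, 1048575), (66499, 1035239)]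

theorem w02 : ∀ c ∈ cubesW02, CubeFalse c := by
  simp only [cubesW02, List.forall_mem_cons]
  exact ⟨c0044, c0045, c0046, c0047, c0048, c0049, c0050, c0051, c0052, c0053, c0054, c0055, c0056, c0057, c0058, c0059, c0060, c0061, c0062, c0063, by simp⟩

end Pool.Agent.NG5c
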