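import Pool.Agent.NG5c.ASModel
import Pool.Agent.NG5c.As.D019
import Pool.Agent.NG5c.As.D024
import Pool.Agent.NG5c.As.D025
import Pool.Agent.NG5c.As.D026
import Pool.Agent.NG5c.As.D027
import Pool.Agent.NG5c.As.D028
import Pool.Agent.NG5c.As.D029

set_option autoImplicit false
set_option maxRecDepth 100000

namespace Pool.Agent.NG5c

theorem c0064 : CubeFalse (74891, 917247) :=
  cubeFalse_of _ c0064Z (by decide +kernel) (fun _ _ _ C => allSat_false (run10_sound C c0064t1 allSat_nil) (by decide +kernel))

theorem c0065 : CubeFalse (74792, 1015739) :=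
  cubeFalse_of _ c0065Z (by decide +kernel) (fun _ _ _ C => allSat_false (run10_sound C c0065t1 allSat_nil) (by decide +kernel))

theorem c0066 : CubeFalse (74067, 915935) :=
  cubeFalse_of _ c0066Z (by decide +kernel) (fun _ _ _ C => allSat_false (run10_sound C c0066t1 allSat_nil) (by decide +kernel))

theorem c0067 : CubeFalse (24836, 948014) :=
  cubeFalse_of _ c0067Z (by decide +kernel) (fun _ _ _ C => allSat_false (run10_sound C c0067t1 allSat_nil) (by decide +kernel))

theorem c0068 : CubeFalse (74513, 654129) :=
  cubeFalse_of _ c0068Z (by decide +kernel) (fun _ _ _ C => allSat_false (run10_sound C c0068t1 allSat_nil) (by decide +kernel))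

theorem c0069 : CubeFalse (66702, 1021423) :=
  cubeFalse_of _ c0069Z (by decide +kernel) (fun _ _ _ C => allSat_false (run10_sound C c0069t1 allSat_nil) (by decide +kernel))

theorem c0070 : CubeFalse (92371, 917503) :=
  cubeFalse_of _ c0070Z (by decide +kernel) (fun _ _ _ C => allSat_false (run10_sound C c0070t1 allSat_nil) (by decide +kernel))

theorem c0071 : CubeFalse (93385, 1048063) :=
  cubeFalse_of _ c0071Z (by decide +kernel) (fun _ _ _ C => allSat_false (run10_sound C c0071t1 allSat_nil) (by decide +kernel))

theorem c0072 : CubeFalse (67092, 516055) :=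
  cubeFalse_of _ c0072Z (by decide +kernel) (fun _ _ _ C => allSat_false (run10_sound C c0072t1 allSat_nil) (by decide +kernel))

theorem c0073 : CubeFalse (75528, 1048425) :=
  cubeFalse_of _ c0073Z (by decide +kernel) (fun _ _ _ C => allSat_false (run10_sound C c0073t1 allSat_nil) (by decide +kernel))

theorem c0074 : CubeFalse (68742, 876543) :=
  cubeFalse_of _ c0074Z (by decide +kernel) (fun _ _ _ C => allSat_false (run10_sound C c0074t1 allSat_nil) (by decide +kernel))

theorem c0075 : CubeFalse (79508, 1048567) :=
  cubeFalse_of _ c0075Z (by decide +kernel) (fun _ _ _ C => allSat_false (run10_sound C c0075t1 allSat_nil) (by decide +kernel))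

theorem c0076 : CubeFalse (74924, 917503) :=
  cubeFalse_of _ c0076Z (by decide +kernel) (fun _ _ _ C => allSat_false (run10_sound C c0076t1 allSat_nil) (by decide +kernel))

theorem c0077 : CubeFalse (75210, 1048575) :=
  cubeFalse_of _ c0077Z (by decide +kernel) (fun _ _ _ C => allSat_false (run10_sound C c0077t1 allSat_nil) (by decide +kernel))

theorem c0078 : CubeFalse (74986, 1048574) :=
  cubeFalse_of _ c0078Z (by decide +kernel) (fun _ _ _ C => allSat_false (run10_sound C c0078t1 allSat_nil) (by decide +kernel))

theorem c0079 : CubeFalse (66771, 1040127) :=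
  cubeFalse_of _ c0079Z (by decide +kernel) (fun _ _ _ C => allSat_false (run10_sound C c0079t1 allSat_nil) (by decide +kernel))

theorem c0080 : CubeFalse (74872, 1044479) :=
  cubeFalse_of _ c0080Z (by decide +kernel) (fun _ _ _ C => allSat_false (run10_sound C c0080t1 allSat_nil) (by decide +kernel))

theorem c0081 : CubeFalse (75398, 655351) :=
  cubeFalse_of _ c0081Z (by decide +kernel) (fun _ _ _ C => allSat_false (run10_sound C c0081t1 allSat_nil) (by decide +kernel))

theorem c0082 : CubeFalse (75278, 507790) :=
  cubeFalse_of _ c0082Z (by decide +kernel) (fun _ _ _ C => allSat_false (run10_sound C c0082t1 allSat_nil) (by decide +kernel))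

theorem c0083 : CubeFalse (79500, 1048575) :=
  cubeFalse_of _ c0083Z (by decide +kernel) (fun _ _ _ C => allSat_false (run10_sound C c0083t1 allSat_nil) (by decide +kernel))

def cubesW03 : List (ℕ × ℕ) := [(74891, 917247), (74792, 1015739), (74067, 915935), (24836, 948014), (74513, 654129), (66702, 1021423), (92371, 917503), (93385, 1048063), (67092, 516055), (75528, 1048425), (68742, 876543), (79508, 1048567), (74924, 917503), (75210, 1048575), (74986, 1048574), (66771, 1040127), (74872, 1044479), (75398, 655351), (75278, 507790), (79500, 1048575)]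

theorem w03 : ∀ c ∈ cubesW03, CubeFalse c := by
  simp only [cubesW03, List.forall_mem_cons]
  exact ⟨c0064, c0065, c0066, c0067, c0068, c0069, c0070, c0071, c0072, c0073, c0074, c0075, c0076, c0077, c0078, c0079, c0080, c0081, c0082, c0083, by simp⟩

end Pool.Agent.NG5c
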