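import Pool.Agent.NG5c.ASModel
import Pool.Agent.NG5c.As.D023
import Pool.Agent.NG5c.As.D027
import Pool.Agent.NG5c.As.D029
import Pool.Agent.NG5c.As.D030
import Pool.Agent.NG5c.As.D031

set_option autoImplicit false
set_option maxRecDepth 100000

namespace Pool.Agent.NG5c

theorem c0084 : CubeFalse (90792, 1046521) :=
  cubeFalse_of _ c0084Z (by decide +kernel) (fun _ _ _ C => allSat_false (run10_sound C c0084t1 allSat_nil) (by decide +kernel))

theorem c0085 : CubeFalse (73968, 1012213) :=
  cubeFalse_of _ c0085Z (by decide +kernel) (fun _ _ _ C => allSat_false (run10_sound C c0085t1 allSat_nil) (by decide +kernel))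

theorem c0086 : CubeFalse (76891, 1048575) :=
  cubeFalse_of _ c0086Z (by decide +kernel) (fun _ _ _ C => allSat_false (run10_sound C c0086t1 allSat_nil) (by decide +kernel))

theorem c0087 : CubeFalse (74954, 1048575) :=
  cubeFalse_of _ c0087Z (by decide +kernel) (fun _ _ _ C => allSat_false (run10_sound C c0087t1 allSat_nil) (by decide +kernel))

theorem c0089 : CubeFalse (75144, 1011179) :=
  cubeFalse_of _ c0089Z (by decide +kernel) (fun _ _ _ C => allSat_false (run10_sound C c0089t1 allSat_nil) (by decide +kernel))

theorem c0090 : CubeFalse (77163, 1048447) :=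
  cubeFalse_of _ c0090Z (by decide +kernel) (fun _ _ _ C => allSat_false (run10_sound C c0090t1 allSat_nil) (by decide +kernel))

theorem c0091 : CubeFalse (75163, 1048543) :=
  cubeFalse_of _ c0091Z (by decide +kernel) (fun _ _ _ C => allSat_false (run10_sound C c0091t1 allSat_nil) (by decide +kernel))

theorem c0092 : CubeFalse (79462, 786431) :=
  cubeFalse_of _ c0092Z (by decide +kernel) (fun _ _ _ C => allSat_false (run10_sound C c0092t1 allSat_nil) (by decide +kernel))

theorem c0093 : CubeFalse (91836, 1048575) :=
  cubeFalse_of _ c0093Z (by decide +kernel) (fun _ _ _ C => allSat_false (run10_sound C c0093t1 allSat_nil) (by decide +kernel))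

theorem c0094 : CubeFalse (75402, 1032190) :=
  cubeFalse_of _ c0094Z (by decide +kernel) (fun _ _ _ C => allSat_false (run10_sound C c0094t1 allSat_nil) (by decide +kernel))

theorem c0096 : CubeFalse (75226, 1048542) :=
  cubeFalse_of _ c0096Z (by decide +kernel) (fun _ _ _ C => allSat_false (run10_sound C c0096t1 allSat_nil) (by decide +kernel))

theorem c0097 : CubeFalse (79299, 1048559) :=
  cubeFalse_of _ c0097Z (by decide +kernel) (fun _ _ _ C => allSat_false (run10_sound C c0097t1 allSat_nil) (by decide +kernel))

theorem c0098 : CubeFalse (75459, 1046519) :=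
  cubeFalse_of _ c0098Z (by decide +kernel) (fun _ _ _ C => allSat_false (run10_sound C c0098t1 allSat_nil) (by decide +kernel))

theorem c0099 : CubeFalse (76886, 1048575) :=
  cubeFalse_of _ c0099Z (by decide +kernel) (fun _ _ _ C => allSat_false (run10_sound C c0099t1 allSat_nil) (by decide +kernel))

theorem c0100 : CubeFalse (74853, 915439) :=
  cubeFalse_of _ c0100Z (by decide +kernel) (fun _ _ _ C => allSat_false (run10_sound C c0100t1 allSat_nil) (by decide +kernel))

theorem c0101 : CubeFalse (79531, 1048511) :=
  cubeFalse_of _ c0101Z (by decide +kernel) (fun _ _ _ C => allSat_false (run10_sound C c0101t1 allSat_nil) (by decide +kernel))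

theorem c0102 : CubeFalse (74829, 1044191) :=
  cubeFalse_of _ c0102Z (by decide +kernel) (fun _ _ _ C => allSat_false (run10_sound C c0102t1 allSat_nil) (by decide +kernel))

theorem c0103 : CubeFalse (75721, 1044443) :=
  cubeFalse_of _ c0103Z (by decide +kernel) (fun _ _ _ C => allSat_false (run10_sound C c0103t1 allSat_nil) (by decide +kernel))

theorem c0104 : CubeFalse (78210, 523183) :=
  cubeFalse_of _ c0104Z (by decide +kernel) (fun _ _ _ C => allSat_false (run10_sound C c0104t1 allSat_nil) (by decide +kernel))

theorem c0105 : CubeFalse (76950, 1015774) :=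
  cubeFalse_of _ c0105Z (by decide +kernel) (fun _ _ _ C => allSat_false (run10_sound C c0105t1 allSat_nil) (by decide +kernel))

def cubesW04 : List (ℕ × ℕ) := [(90792, 1046521), (73968, 1012213), (76891, 1048575), (74954, 1048575), (75144, 1011179), (77163, 1048447), (75163, 1048543), (79462, 786431), (91836, 1048575), (75402, 1032190), (75226, 1048542), (79299, 1048559), (75459, 1046519), (76886, 1048575), (74853, 915439), (79531, 1048511), (74829, 1044191), (75721, 1044443), (78210, 523183), (76950, 1015774)]

theorem w04 : ∀ c ∈ cubesW04, CubeFalse c := by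
  simp only [cubesW04, List.forall_mem_cons]
  exact ⟨c0084, c0085, c0086, c0087, c0089, c0090, c0091, c0092, c0093, c0094, c0096, c0097, c0098, c0099, c0100, c0101, c0102, c0103, c0104, c0105, by simp⟩

end Pool.Agent.NG5c
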