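import Pool.Agent.NG5c.ASModel
import Pool.Agent.NG5c.As.D005
import Pool.Agent.NG5c.As.D018
import Pool.Agent.NG5c.As.D021
import Pool.Agent.NG5c.As.D026
import Pool.Agent.NG5c.As.D030
import Pool.Agent.NG5c.As.D031
import Pool.Agent.NG5c.As.D032

set_option autoImplicit false
set_option maxRecDepth 100000

namespace Pool.Agent.NG5c

theorem c0106 : CubeFalse (67304, 778221) :=
  cubeFalse_of _ c0106Z (by decide +kernel) (fun _ _ _ C => allSat_false (run10_sound C c0106t1 allSat_nil) (by decide +kernel))

theorem c0107 : CubeFalse (80076, 1048573) :=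
  cubeFalse_of _ c0107Z (by decide +kernel) (fun _ _ _ C => allSat_false (run10_sound C c0107t1 allSat_nil) (by decide +kernel))

theorem c0108 : CubeFalse (80108, 1014783) :=
  cubeFalse_of _ c0108Z (by decide +kernel) (fun _ _ _ C => allSat_false (run10_sound C c0108t1 allSat_nil) (by decide +kernel))

theorem c0110 : CubeFalse (74778, 1042395) :=
  cubeFalse_of _ c0110Z (by decide +kernel) (fun _ _ _ C => allSat_false (run10_sound C c0110t1 allSat_nil) (by decide +kernel))

theorem c0111 : CubeFalse (75206, 1048575) :=
  cubeFalse_of _ c0111Z (by decide +kernel) (fun _ _ _ C => allSat_false (run10_sound C c0111t1 allSat_nil) (by decide +kernel))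

theorem c0112 : CubeFalse (6280, 416718) :=
  cubeFalse_of _ c0112Z (by decide +kernel) (fun _ _ _ C => allSat_false (run10_sound C c0112t1 allSat_nil) (by decide +kernel))

theorem c0113 : CubeFalse (75634, 1048439) :=
  cubeFalse_of _ c0113Z (by decide +kernel) (fun _ _ _ C => allSat_false (run10_sound C c0113t1 allSat_nil) (by decide +kernel))

theorem c0114 : CubeFalse (1302, 316758) :=
  cubeFalse_of _ c0114Z (by decide +kernel) (fun _ _ _ C => allSat_false (run10_sound C c0114t1 allSat_nil) (by decide +kernel))

theorem c0115 : CubeFalse (79480, 1030015) :=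
  cubeFalse_of _ c0115Z (by decide +kernel) (fun _ _ _ C => allSat_false (run10_sound C c0115t1 allSat_nil) (by decide +kernel))

theorem c0116 : CubeFalse (8740, 326518) :=
  cubeFalse_of _ c0116Z (by decide +kernel) (fun _ _ _ C => allSat_false (run10_sound C c0116t1 allSat_nil) (by decide +kernel))

theorem c0117 : CubeFalse (78664, 1046491) :=
  cubeFalse_of _ c0117Z (by decide +kernel) (fun _ _ _ C => allSat_false (run10_sound C c0117t1 allSat_nil) (by decide +kernel))

theorem c0118 : CubeFalse (67363, 1023923) :=
  cubeFalse_of _ c0118Z (by decide +kernel) (fun _ _ _ C => allSat_false (run10_sound C c0118t1 allSat_nil) (by decide +kernel))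

theorem c0119 : CubeFalse (8739, 178979) :=
  cubeFalse_of _ c0119Z (by decide +kernel) (fun _ _ _ C => allSat_false (run10_sound C c0119t1 allSat_nil) (by decide +kernel))

theorem c0120 : CubeFalse (12680, 979336) :=
  cubeFalse_of _ c0120Z (by decide +kernel) (fun _ _ _ C => allSat_false (run10_sound C c0120t1 allSat_nil) (by decide +kernel))

theorem c0121 : CubeFalse (68805, 1036245) :=
  cubeFalse_of _ c0121Z (by decide +kernel) (fun _ _ _ C => allSat_false (run10_sound C c0121t1 allSat_nil) (by decide +kernel))

theorem c0122 : CubeFalse (31939, 982783) :=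
  cubeFalse_of _ c0122Z (by decide +kernel) (fun _ _ _ C => allSat_false (run10_sound C c0122t1 allSat_nil) (by decide +kernel))

theorem c0123 : CubeFalse (74897, 1047959) :=
  cubeFalse_of _ c0123Z (by decide +kernel) (fun _ _ _ C => allSat_false (run10_sound C c0123t1 allSat_nil) (by decide +kernel))

theorem c0124 : CubeFalse (8488, 982511) :=
  cubeFalse_of _ c0124Z (by decide +kernel) (fun _ _ _ C => allSat_false (run10_sound C c0124t1 allSat_nil) (by decide +kernel))

theorem c0125 : CubeFalse (70016, 1036764) :=
  cubeFalse_of _ c0125Z (by decide +kernel) (fun _ _ _ C => allSat_false (run10_sound C c0125t1 allSat_nil) (by decide +kernel))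

theorem c0127 : CubeFalse (6275, 974731) :=
  cubeFalse_of _ c0127Z (by decide +kernel) (fun _ _ _ C => allSat_false (run10_sound C c0127t1 allSat_nil) (by decide +kernel))

def cubesW05 : List (ℕ × ℕ) := [(67304, 778221), (80076, 1048573), (80108, 1014783), (74778, 1042395), (75206, 1048575), (6280, 416718), (75634, 1048439), (1302, 316758), (79480, 1030015), (8740, 326518), (78664, 1046491), (67363, 1023923), (8739, 178979), (12680, 979336), (68805, 1036245), (31939, 982783), (74897, 1047959), (8488, 982511), (70016, 1036764), (6275, 974731)]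

theorem w05 : ∀ c ∈ cubesW05, CubeFalse c := by
  simp only [cubesW05, List.forall_mem_cons]
  exact ⟨c0106, c0107, c0108, c0110, c0111, c0112, c0113, c0114, c0115, c0116, c0117, c0118, c0119, c0120, c0121, c0122, c0123, c0124, c0125, c0127, by simp⟩

end Pool.Agent.NG5c
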