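import Pool.Agent.NG5c.ASModel
import Pool.Agent.NG5c.As.D009
import Pool.Agent.NG5c.As.D010
import Pool.Agent.NG5c.As.D028
import Pool.Agent.NG5c.As.D029
import Pool.Agent.NG5c.As.D032
import Pool.Agent.NG5c.As.D033

set_option autoImplicit false
set_option maxRecDepth 100000

namespace Pool.Agent.NG5c

theorem c0129 : CubeFalse (76885, 1015415) :=
  cubeFalse_of _ c0129Z (by decide +kernel) (fun _ _ _ C => allSat_false (run10_sound C c0129t1 allSat_nil) (by decide +kernel))

theorem c0130 : CubeFalse (75194, 524223) :=
  cubeFalse_of _ c0130Z (by decide +kernel) (fun _ _ _ C => allSat_false (run10_sound C c0130t1 allSat_nil) (by decide +kernel))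

theorem c0131 : CubeFalse (75497, 1048575) :=
  cubeFalse_of _ c0131Z (by decide +kernel) (fun _ _ _ C => allSat_false (run10_sound C c0131t1 allSat_nil) (by decide +kernel))

theorem c0132 : CubeFalse (77161, 1044479) :=
  cubeFalse_of _ c0132Z (by decide +kernel) (fun _ _ _ C => allSat_false (run10_sound C c0132t1 allSat_nil) (by decide +kernel))

theorem c0133 : CubeFalse (75483, 786431) :=
  cubeFalse_of _ c0133Z (by decide +kernel) (fun _ _ _ C => allSat_false (run10_sound C c0133t1 allSat_nil) (by decide +kernel))

theorem c0134 : CubeFalse (74812, 1046526) :=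
  cubeFalse_of _ c0134Z (by decide +kernel) (fun _ _ _ C => allSat_false (run10_sound C c0134t1 allSat_nil) (by decide +kernel))

theorem c0135 : CubeFalse (13914, 950271) :=
  cubeFalse_of _ c0135Z (by decide +kernel) (fun _ _ _ C => allSat_false (run10_sound C c0135t1 allSat_nil) (by decide +kernel))

theorem c0137 : CubeFalse (79842, 786431) :=
  cubeFalse_of _ c0137Z (by decide +kernel) (fun _ _ _ C => allSat_false (run10_sound C c0137t1 allSat_nil) (by decide +kernel))

theorem c0138 : CubeFalse (74183, 1043439) :=
  cubeFalse_of _ c0138Z (by decide +kernel) (fun _ _ _ C => allSat_false (run10_sound C c0138t1 allSat_nil) (by decide +kernel))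

theorem c0139 : CubeFalse (75176, 1048558) :=
  cubeFalse_of _ c0139Z (by decide +kernel) (fun _ _ _ C => allSat_false (run10_sound C c0139t1 allSat_nil) (by decide +kernel))

theorem c0140 : CubeFalse (9400, 458239) :=
  cubeFalse_of _ c0140Z (by decide +kernel) (fun _ _ _ C => allSat_false (run10_sound C c0140t1 allSat_nil) (by decide +kernel))

theorem c0141 : CubeFalse (66708, 1040381) :=
  cubeFalse_of _ c0141Z (by decide +kernel) (fun _ _ _ C => allSat_false (run10_sound C c0141t1 allSat_nil) (by decide +kernel))

theorem c0142 : CubeFalse (78956, 522239) :=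
  cubeFalse_of _ c0142Z (by decide +kernel) (fun _ _ _ C => allSat_false (run10_sound C c0142t1 allSat_nil) (by decide +kernel))

theorem c0143 : CubeFalse (91832, 1048511) :=
  cubeFalse_of _ c0143Z (by decide +kernel) (fun _ _ _ C => allSat_false (run10_sound C c0143t1 allSat_nil) (by decide +kernel))

theorem c0144 : CubeFalse (75241, 1048575) :=
  cubeFalse_of _ c0144Z (by decide +kernel) (fun _ _ _ C => allSat_false (run10_sound C c0144t1 allSat_nil) (by decide +kernel))

theorem c0146 : CubeFalse (91800, 1048573) :=
  cubeFalse_of _ c0146Z (by decide +kernel) (fun _ _ _ C => allSat_false (run10_sound C c0146t1 allSat_nil) (by decide +kernel))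

theorem c0147 : CubeFalse (70118, 1037814) :=
  cubeFalse_of _ c0147Z (by decide +kernel) (fun _ _ _ C => allSat_false (run10_sound C c0147t1 allSat_nil) (by decide +kernel))

theorem c0148 : CubeFalse (74313, 1047167) :=
  cubeFalse_of _ c0148Z (by decide +kernel) (fun _ _ _ C => allSat_false (run10_sound C c0148t1 allSat_nil) (by decide +kernel))

theorem c0149 : CubeFalse (77133, 1015677) :=
  cubeFalse_of _ c0149Z (by decide +kernel) (fun _ _ _ C => allSat_false (run10_sound C c0149t1 allSat_nil) (by decide +kernel))

theorem c0150 : CubeFalse (74247, 637511) :=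
  cubeFalse_of _ c0150Z (by decide +kernel) (fun _ _ _ C => allSat_false (run10_sound C c0150t1 allSat_nil) (by decide +kernel))

def cubesW06 : List (ℕ × ℕ) := [(76885, 1015415), (75194, 524223), (75497, 1048575), (77161, 1044479), (75483, 786431), (74812, 1046526), (13914, 950271), (79842, 786431), (74183, 1043439), (75176, 1048558), (9400, 458239), (66708, 1040381), (78956, 522239), (91832, 1048511), (75241, 1048575), (91800, 1048573), (70118, 1037814), (74313, 1047167), (77133, 1015677), (74247, 637511)]

theorem w06 : ∀ c ∈ cubesW06, CubeFalse c := by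
  simp only [cubesW06, List.forall_mem_cons]
  exact ⟨c0129, c0130, c0131, c0132, c0133, c0134, c0135, c0137, c0138, c0139, c0140, c0141, c0142, c0143, c0144, c0146, c0147, c0148, c0149, c0150, by simp⟩

end Pool.Agent.NG5c
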