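import Pool.Agent.NG5c.ASModel
import Pool.Agent.NG5c.As.D008
import Pool.Agent.NG5c.As.D011
import Pool.Agent.NG5c.As.D012
import Pool.Agent.NG5c.As.D014
import Pool.Agent.NG5c.As.D016
import Pool.Agent.NG5c.As.D017
import Pool.Agent.NG5c.As.D020
import Pool.Agent.NG5c.As.D030
import Pool.Agent.NG5c.As.D031
import Pool.Agent.NG5c.As.D033

set_option autoImplicit false
set_option maxRecDepth 100000

namespace Pool.Agent.NG5c

theorem c0151 : CubeFalse (74590, 519038) :=
  cubeFalse_of _ c0151Z (by decide +kernel) (fun _ _ _ C => allSat_false (run10_sound C c0151t1 allSat_nil) (by decide +kernel))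

theorem c0152 : CubeFalse (75228, 786431) :=
  cubeFalse_of _ c0152Z (by decide +kernel) (fun _ _ _ C => allSat_false (run10_sound C c0152t1 allSat_nil) (by decide +kernel))

theorem c0153 : CubeFalse (80534, 1014751) :=
  cubeFalse_of _ c0153Z (by decide +kernel) (fun _ _ _ C => allSat_false (run10_sound C c0153t1 allSat_nil) (by decide +kernel))

theorem c0154 : CubeFalse (76851, 1048503) :=
  cubeFalse_of _ c0154Z (by decide +kernel) (fun _ _ _ C => allSat_false (run10_sound C c0154t1 allSat_nil) (by decide +kernel))

theorem c0155 : CubeFalse (9275, 671547) :=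
  cubeFalse_of _ c0155Z (by decide +kernel) (fun _ _ _ C => allSat_false (run10_sound C c0155t1 allSat_nil) (by decide +kernel))

theorem c0156 : CubeFalse (75095, 917495) :=
  cubeFalse_of _ c0156Z (by decide +kernel) (fun _ _ _ C => allSat_false (run10_sound C c0156t1 allSat_nil) (by decide +kernel))

theorem c0157 : CubeFalse (80768, 1015755) :=
  cubeFalse_of _ c0157Z (by decide +kernel) (fun _ _ _ C => allSat_false (run10_sound C c0157t1 allSat_nil) (by decide +kernel))

theorem c0158 : CubeFalse (76817, 1048503) :=
  cubeFalse_of _ c0158Z (by decide +kernel) (fun _ _ _ C => allSat_false (run10_sound C c0158t1 allSat_nil) (by decide +kernel))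

theorem c0159 : CubeFalse (67760, 1035768) :=
  cubeFalse_of _ c0159Z (by decide +kernel) (fun _ _ _ C => allSat_false (run10_sound C c0159t1 allSat_nil) (by decide +kernel))

theorem c0160 : CubeFalse (75066, 1015807) :=
  cubeFalse_of _ c0160Z (by decide +kernel) (fun _ _ _ C => allSat_false (run10_sound C c0160t1 allSat_nil) (by decide +kernel))

theorem c0162 : CubeFalse (81091, 1048575) :=
  cubeFalse_of _ c0162Z (by decide +kernel) (fun _ _ _ C => allSat_false (run10_sound C c0162t1 allSat_nil) (by decide +kernel))

theorem c0163 : CubeFalse (80866, 1048575) :=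
  cubeFalse_of _ c0163Z (by decide +kernel) (fun _ _ _ C => allSat_false (run10_sound C c0163t1 allSat_nil) (by decide +kernel))

theorem c0164 : CubeFalse (79975, 1048575) :=
  cubeFalse_of _ c0164Z (by decide +kernel) (fun _ _ _ C => allSat_false (run10_sound C c0164t1 allSat_nil) (by decide +kernel))

theorem c0165 : CubeFalse (73935, 1047551) :=
  cubeFalse_of _ c0165Z (by decide +kernel) (fun _ _ _ C => allSat_false (run10_sound C c0165t1 allSat_nil) (by decide +kernel))

theorem c0166 : CubeFalse (9428, 458716) :=
  cubeFalse_of _ c0166Z (by decide +kernel) (fun _ _ _ C => allSat_false (run10_sound C c0166t1 allSat_nil) (by decide +kernel))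

theorem c0168 : CubeFalse (75752, 1046527) :=
  cubeFalse_of _ c0168Z (by decide +kernel) (fun _ _ _ C => allSat_false (run10_sound C c0168t1 allSat_nil) (by decide +kernel))

theorem c0169 : CubeFalse (77006, 1048575) :=
  cubeFalse_of _ c0169Z (by decide +kernel) (fun _ _ _ C => allSat_false (run10_sound C c0169t1 allSat_nil) (by decide +kernel))

theorem c0170 : CubeFalse (69892, 1039703) :=
  cubeFalse_of _ c0170Z (by decide +kernel) (fun _ _ _ C => allSat_false (run10_sound C c0170t1 allSat_nil) (by decide +kernel))

theorem c0171 : CubeFalse (9992, 980799) :=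
  cubeFalse_of _ c0171Z (by decide +kernel) (fun _ _ _ C => allSat_false (run10_sound C c0171t1 allSat_nil) (by decide +kernel))

theorem c0172 : CubeFalse (73943, 1029879) :=
  cubeFalse_of _ c0172Z (by decide +kernel) (fun _ _ _ C => allSat_false (run10_sound C c0172t1 allSat_nil) (by decide +kernel))

def cubesW07 : List (ℕ × ℕ) := [(74590, 519038), (75228, 786431), (80534, 1014751), (76851, 1048503), (9275, 671547), (75095, 917495), (80768, 1015755), (76817, 1048503), (67760, 1035768), (75066, 1015807), (81091, 1048575), (80866, 1048575), (79975, 1048575), (73935, 1047551), (9428, 458716), (75752, 1046527), (77006, 1048575), (69892, 1039703), (9992, 980799), (73943, 1029879)]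

theorem w07 : ∀ c ∈ cubesW07, CubeFalse c := by
  simp only [cubesW07, List.forall_mem_cons]
  exact ⟨c0151, c0152, c0153, c0154, c0155, c0156, c0157, c0158, c0159, c0160, c0162, c0163, c0164, c0165, c0166, c0168, c0169, c0170, c0171, c0172, by simp⟩

end Pool.Agent.NG5c
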