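import Pool.Agent.NG5c.ASModel
import Pool.Agent.NG5c.As.D013
import Pool.Agent.NG5c.As.D018
import Pool.Agent.NG5c.As.D021
import Pool.Agent.NG5c.As.D022
import Pool.Agent.NG5c.As.D033

set_option autoImplicit false
set_option maxRecDepth 100000

namespace Pool.Agent.NG5c

theorem c0173 : CubeFalse (80745, 1048575) :=
  cubeFalse_of _ c0173Z (by decide +kernel) (fun _ _ _ C => allSat_false (run10_sound C c0173t1 allSat_nil) (by decide +kernel))

theorem c0174 : CubeFalse (75094, 1048575) :=
  cubeFalse_of _ c0174Z (by decide +kernel) (fun _ _ _ C => allSat_false (run10_sound C c0174t1 allSat_nil) (by decide +kernel))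

theorem c0175 : CubeFalse (66054, 782023) :=
  cubeFalse_of _ c0175Z (by decide +kernel) (fun _ _ _ C => allSat_false (run10_sound C c0175t1 allSat_nil) (by decide +kernel))

theorem c0176 : CubeFalse (75084, 524159) :=
  cubeFalse_of _ c0176Z (by decide +kernel) (fun _ _ _ C => allSat_false (run10_sound C c0176t1 allSat_nil) (by decide +kernel))

theorem c0177 : CubeFalse (13470, 982431) :=
  cubeFalse_of _ c0177Z (by decide +kernel) (fun _ _ _ C => allSat_false (run10_sound C c0177t1 allSat_nil) (by decide +kernel))

theorem c0178 : CubeFalse (76831, 917439) :=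
  cubeFalse_of _ c0178Z (by decide +kernel) (fun _ _ _ C => allSat_false (run10_sound C c0178t1 allSat_nil) (by decide +kernel))

theorem c0179 : CubeFalse (76839, 1048511) :=
  cubeFalse_of _ c0179Z (by decide +kernel) (fun _ _ _ C => allSat_false (run10_sound C c0179t1 allSat_nil) (by decide +kernel))

theorem c0180 : CubeFalse (10951, 978943) :=
  cubeFalse_of _ c0180Z (by decide +kernel) (fun _ _ _ C => allSat_false (run10_sound C c0180t1 allSat_nil) (by decide +kernel))

theorem c0182 : CubeFalse (7333, 974311) :=
  cubeFalse_of _ c0182Z (by decide +kernel) (fun _ _ _ C => allSat_false (run10_sound C c0182t1 allSat_nil) (by decide +kernel))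

theorem c0183 : CubeFalse (76949, 523679) :=
  cubeFalse_of _ c0183Z (by decide +kernel) (fun _ _ _ C => allSat_false (run10_sound C c0183t1 allSat_nil) (by decide +kernel))

theorem c0184 : CubeFalse (76887, 1048575) :=
  cubeFalse_of _ c0184Z (by decide +kernel) (fun _ _ _ C => allSat_false (run10_sound C c0184t1 allSat_nil) (by decide +kernel))

theorem c0185 : CubeFalse (77015, 1047767) :=
  cubeFalse_of _ c0185Z (by decide +kernel) (fun _ _ _ C => allSat_false (run10_sound C c0185t1 allSat_nil) (by decide +kernel))

theorem c0186 : CubeFalse (91752, 227311) :=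
  cubeFalse_of _ c0186Z (by decide +kernel) (fun _ _ _ C => allSat_false (run10_sound C c0186t1 allSat_nil) (by decide +kernel))

theorem c0187 : CubeFalse (15459, 983039) :=
  cubeFalse_of _ c0187Z (by decide +kernel) (fun _ _ _ C => allSat_false (run10_sound C c0187t1 allSat_nil) (by decide +kernel))

theorem c0188 : CubeFalse (80327, 1048575) :=
  cubeFalse_of _ c0188Z (by decide +kernel) (fun _ _ _ C => allSat_false (run10_sound C c0188t1 allSat_nil) (by decide +kernel))

theorem c0189 : CubeFalse (81572, 1048574) :=
  cubeFalse_of _ c0189Z (by decide +kernel) (fun _ _ _ C => allSat_false (run10_sound C c0189t1 allSat_nil) (by decide +kernel))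

theorem c0190 : CubeFalse (78592, 1046330) :=
  cubeFalse_of _ c0190Z (by decide +kernel) (fun _ _ _ C => allSat_false (run10_sound C c0190t1 allSat_nil) (by decide +kernel))

theorem c0191 : CubeFalse (65940, 1039764) :=
  cubeFalse_of _ c0191Z (by decide +kernel) (fun _ _ _ C => allSat_false (run10_sound C c0191t1 allSat_nil) (by decide +kernel))

theorem c0192 : CubeFalse (0, 445194) :=
  cubeFalse_of _ c0192Z (by decide +kernel) (fun _ _ _ C => allSat_false (run10_sound C c0192t1 allSat_nil) (by decide +kernel))

theorem c0194 : CubeFalse (67402, 1040362) :=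
  cubeFalse_of _ c0194Z (by decide +kernel) (fun _ _ _ C => allSat_false (run10_sound C c0194t1 allSat_nil) (by decide +kernel))

def cubesW08 : List (ℕ × ℕ) := [(80745, 1048575), (75094, 1048575), (66054, 782023), (75084, 524159), (13470, 982431), (76831, 917439), (76839, 1048511), (10951, 978943), (7333, 974311), (76949, 523679), (76887, 1048575), (77015, 1047767), (91752, 227311), (15459, 983039), (80327, 1048575), (81572, 1048574), (78592, 1046330), (65940, 1039764), (0, 445194), (67402, 1040362)]

theorem w08 : ∀ c ∈ cubesW08, CubeFalse c := by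
  simp only [cubesW08, List.forall_mem_cons]
  exact ⟨c0173, c0174, c0175, c0176, c0177, c0178, c0179, c0180, c0182, c0183, c0184, c0185, c0186, c0187, c0188, c0189, c0190, c0191, c0192, c0194, by simp⟩

end Pool.Agent.NG5c
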