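import Pool.Agent.NG5c.ASModel
import Pool.Agent.NG5c.As.B0300
import Pool.Agent.NG5c.As.B0300s0
import Pool.Agent.NG5c.As.B0300s1
import Pool.Agent.NG5c.As.B0300s2
import Pool.Agent.NG5c.As.B0300s3
import Pool.Agent.NG5c.As.B0301
import Pool.Agent.NG5c.As.B0301s0
import Pool.Agent.NG5c.As.B0301s1
import Pool.Agent.NG5c.As.B0301s2
import Pool.Agent.NG5c.As.B0302
import Pool.Agent.NG5c.As.B0302s0
import Pool.Agent.NG5c.As.B0302s1
import Pool.Agent.NG5c.As.B0302s2
import Pool.Agent.NG5c.As.B0303
import Pool.Agent.NG5c.As.B0303s0
import Pool.Agent.NG5c.As.B0303s1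
import Pool.Agent.NG5c.As.D002
import Pool.Agent.NG5c.As.D005
import Pool.Agent.NG5c.As.D006
import Pool.Agent.NG5c.As.D007
import Pool.Agent.NG5c.As.D009
import Pool.Agent.NG5c.As.D010
import Pool.Agent.NG5c.As.D012
import Pool.Agent.NG5c.As.D033

set_option autoImplicit false
set_option maxRecDepth 100000

namespace Pool.Agent.NG5c

theorem c0195 : CubeFalse (67345, 1038263) :=
  cubeFalse_of _ c0195Z (by decide +kernel) (fun _ _ _ C => allSat_false (run10_sound C c0195t1 allSat_nil) (by decide +kernel))

theorem c0196 : CubeFalse (76425, 913343) :=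
  cubeFalse_of _ c0196Z (by decide +kernel) (fun _ _ _ C => allSat_false (run10_sound C c0196t1 allSat_nil) (by decide +kernel))

theorem c0198 : CubeFalse (79239, 1048567) :=
  cubeFalse_of _ c0198Z (by decide +kernel) (fun _ _ _ C => allSat_false (run10_sound C c0198t1 allSat_nil) (by decide +kernel))

theorem c0199 : CubeFalse (92305, 1044433) :=
  cubeFalse_of _ c0199Z (by decide +kernel) (fun _ _ _ C => allSat_false (run10_sound C c0199t1 allSat_nil) (by decide +kernel))

theorem c0200 : CubeFalse (67254, 385023) :=
  cubeFalse_of _ c0200Z (by decide +kernel) (fun _ _ _ C => allSat_false (run10_sound C c0200t1 allSat_nil) (by decide +kernel))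

theorem c0202 : CubeFalse (70434, 1040190) :=
  cubeFalse_of _ c0202Z (by decide +kernel) (fun _ _ _ C => allSat_false (run10_sound C c0202t1 allSat_nil) (by decide +kernel))

theorem c0204 : CubeFalse (67750, 1035198) :=
  cubeFalse_of _ c0204Z (by decide +kernel) (fun _ _ _ C => allSat_false (run10_sound C c0204t1 allSat_nil) (by decide +kernel))

theorem c0205 : CubeFalse (70016, 1005040) :=
  cubeFalse_of _ c0205Z (by decide +kernel) (fun _ _ _ C => allSat_false (run10_sound C c0205t1 allSat_nil) (by decide +kernel))

theorem c0206 : CubeFalse (10144, 983019) :=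
  cubeFalse_of _ c0206Z (by decide +kernel) (fun _ _ _ C => allSat_false (run10_sound C c0206t1 allSat_nil) (by decide +kernel))

theorem c0207 : CubeFalse (69648, 71189) :=
  cubeFalse_of _ c0207Z (by decide +kernel) (fun _ _ _ C => allSat_false (run10_sound C c0207t1 allSat_nil) (by decide +kernel))

theorem c0208 : CubeFalse (2210, 921506) :=
  cubeFalse_of _ c0208Z (by decide +kernel) (fun _ _ _ C => allSat_false (run10_sound C c0208t1 allSat_nil) (by decide +kernel))

theorem c0209 : CubeFalse (0, 55728) :=
  cubeFalse_of _ c0209Z (by decide +kernel) (fun _ _ _ C => allSat_false (run10_sound C c0209t1 allSat_nil) (by decide +kernel))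

theorem c0210 : CubeFalse (0, 974848) :=
  cubeFalse_of _ c0210Z (by decide +kernel) (fun _ _ _ C => allSat_false (run10_sound C c0210t1 allSat_nil) (by decide +kernel))

theorem c0211 : CubeFalse (69888, 69902) :=
  cubeFalse_of _ c0211Z (by decide +kernel) (fun _ _ _ C => allSat_false (run10_sound C c0211t1 allSat_nil) (by decide +kernel))

theorem c0212 : CubeFalse (0, 983040) :=
  cubeFalse_of _ c0212Z (by decide +kernel) (fun _ _ _ C => allSat_false (run10_sound C c0212t1 allSat_nil) (by decide +kernel))

theorem c0300 : CubeFalse (74602, 1011707) :=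
  cubeFalse_of _ c0300Z (by decide +kernel) (fun _ _ _ C => allSat_false (run13_sound C c0300t8 (run13_sound C c0300t7 (run13_sound C c0300t6 (run13_sound C c0300t5 (run13_sound C c0300t4 (run13_sound C c0300t3 (run13_sound C c0300t2 (run13_sound C c0300t1 allSat_nil)))))))) (by decide +kernel))

theorem c0301 : CubeFalse (14954, 983023) :=
  cubeFalse_of _ c0301Z (by decide +kernel) (fun _ _ _ C => allSat_false (run12_sound C c0301t7 (run12_sound C c0301t6 (run12_sound C c0301t5 (run12_sound C c0301t4 (run12_sound C c0301t3 (run12_sound C c0301t2 (run12_sound C c0301t1 allSat_nil))))))) (by decide +kernel))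

theorem c0302 : CubeFalse (79596, 1048573) :=
  cubeFalse_of _ c0302Z (by decide +kernel) (fun _ _ _ C => allSat_false (run12_sound C c0302t5 (run12_sound C c0302t4 (run12_sound C c0302t3 (run12_sound C c0302t2 (run12_sound C c0302t1 allSat_nil))))) (by decide +kernel))

theorem c0303 : CubeFalse (79946, 1048283) :=
  cubeFalse_of _ c0303Z (by decide +kernel) (fun _ _ _ C => allSat_false (run12_sound C c0303t4 (run12_sound C c0303t3 (run12_sound C c0303t2 (run12_sound C c0303t1 allSat_nil)))) (by decide +kernel))

theorem c0304 : CubeFalse (75374, 1042175) :=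
  cubeFalse_of _ c0304Z (by decide +kernel) (fun _ _ _ C => allSat_false (run12_sound C c0304t3 (run12_sound C c0304t2 (run12_sound C c0304t1 allSat_nil))) (by decide +kernel))

def cubesW09 : List (ℕ × ℕ) := [(67345, 1038263), (76425, 913343), (79239, 1048567), (92305, 1044433), (67254, 385023), (70434, 1040190), (67750, 1035198), (70016, 1005040), (10144, 983019), (69648, 71189), (2210, 921506), (0, 55728), (0, 974848), (69888, 69902), (0, 983040), (74602, 1011707), (14954, 983023), (79596, 1048573), (79946, 1048283), (75374, 1042175)]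

theorem w09 : ∀ c ∈ cubesW09, CubeFalse c := by
  simp only [cubesW09, List.forall_mem_cons]
  exact ⟨c0195, c0196, c0198, c0199, c0200, c0202, c0204, c0205, c0206, c0207, c0208, c0209, c0210, c0211, c0212, c0300, c0301, c0302, c0303, c0304, by simp⟩

end Pool.Agent.NG5c
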