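import Pool.Agent.NG5c.ASModel
import Pool.Agent.NG5c.As.D003
import Pool.Agent.NG5c.As.D004
import Pool.Agent.NG5c.As.D006
import Pool.Agent.NG5c.As.D007
import Pool.Agent.NG5c.As.D009
import Pool.Agent.NG5c.As.D011
import Pool.Agent.NG5c.As.D017
import Pool.Agent.NG5c.As.D022
import Pool.Agent.NG5c.As.D025
import Pool.Agent.NG5c.As.D027
import Pool.Agent.NG5c.As.D033

set_option autoImplicit false
set_option maxRecDepth 100000

namespace Pool.Agent.NG5c

theorem c0305 : CubeFalse (74574, 995198) :=
  cubeFalse_of _ c0305Z (by decide +kernel) (fun _ _ _ C => allSat_false (run12_sound C c0305t3 (run12_sound C c0305t2 (run12_sound C c0305t1 allSat_nil))) (by decide +kernel))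

theorem c0306 : CubeFalse (79438, 786287) :=
  cubeFalse_of _ c0306Z (by decide +kernel) (fun _ _ _ C => allSat_false (run12_sound C c0306t3 (run12_sound C c0306t2 (run12_sound C c0306t1 allSat_nil))) (by decide +kernel))

theorem c0307 : CubeFalse (75113, 1015807) :=
  cubeFalse_of _ c0307Z (by decide +kernel) (fun _ _ _ C => allSat_false (run11_sound C c0307t2 (run11_sound C c0307t1 allSat_nil)) (by decide +kernel))

theorem c0308 : CubeFalse (718, 450271) :=
  cubeFalse_of _ c0308Z (by decide +kernel) (fun _ _ _ C => allSat_false (run11_sound C c0308t2 (run11_sound C c0308t1 allSat_nil)) (by decide +kernel))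

theorem c0309 : CubeFalse (80620, 1048575) :=
  cubeFalse_of _ c0309Z (by decide +kernel) (fun _ _ _ C => allSat_false (run11_sound C c0309t2 (run11_sound C c0309t1 allSat_nil)) (by decide +kernel))

theorem c0310 : CubeFalse (79948, 1032159) :=
  cubeFalse_of _ c0310Z (by decide +kernel) (fun _ _ _ C => allSat_false (run11_sound C c0310t2 (run11_sound C c0310t1 allSat_nil)) (by decide +kernel))

theorem c0311 : CubeFalse (4778, 973823) :=
  cubeFalse_of _ c0311Z (by decide +kernel) (fun _ _ _ C => allSat_false (run11_sound C c0311t2 (run11_sound C c0311t1 allSat_nil)) (by decide +kernel))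

theorem c0312 : CubeFalse (14936, 983037) :=
  cubeFalse_of _ c0312Z (by decide +kernel) (fun _ _ _ C => allSat_false (run10_sound C c0312t1 allSat_nil) (by decide +kernel))

theorem c0313 : CubeFalse (92550, 1048503) :=
  cubeFalse_of _ c0313Z (by decide +kernel) (fun _ _ _ C => allSat_false (run10_sound C c0313t1 allSat_nil) (by decide +kernel))

theorem c0314 : CubeFalse (74060, 1048063) :=
  cubeFalse_of _ c0314Z (by decide +kernel) (fun _ _ _ C => allSat_false (run10_sound C c0314t1 allSat_nil) (by decide +kernel))

theorem c0315 : CubeFalse (10470, 978430) :=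
  cubeFalse_of _ c0315Z (by decide +kernel) (fun _ _ _ C => allSat_false (run10_sound C c0315t1 allSat_nil) (by decide +kernel))

theorem c0316 : CubeFalse (15018, 458751) :=
  cubeFalse_of _ c0316Z (by decide +kernel) (fun _ _ _ C => allSat_false (run10_sound C c0316t1 allSat_nil) (by decide +kernel))

def cubesW10 : List (ℕ × ℕ) := [(74574, 995198), (79438, 786287), (75113, 1015807), (718, 450271), (80620, 1048575), (79948, 1032159), (4778, 973823), (14936, 983037), (92550, 1048503), (74060, 1048063), (10470, 978430), (15018, 458751)]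

theorem w10 : ∀ c ∈ cubesW10, CubeFalse c := by
  simp only [cubesW10, List.forall_mem_cons]
  exact ⟨c0305, c0306, c0307, c0308, c0309, c0310, c0311, c0312, c0313, c0314, c0315, c0316, by simp⟩

end Pool.Agent.NG5c
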