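import Pool.Agent.NG5c.Cubes
import Pool.Agent.NG5c.As.W00
import Pool.Agent.NG5c.As.W01
import Pool.Agent.NG5c.As.W02
import Pool.Agent.NG5c.As.W03
import Pool.Agent.NG5c.As.W04
import Pool.Agent.NG5c.As.W05
import Pool.Agent.NG5c.As.W06
import Pool.Agent.NG5c.As.W07
import Pool.Agent.NG5c.As.W08
import Pool.Agent.NG5c.As.W09
import Pool.Agent.NG5c.As.W10

set_option autoImplicit false
set_option maxRecDepth 100000

namespace Pool.Agent.NG5c

theorem cubes_eq : cubes = cubesW00 ++ (cubesW01 ++ (cubesW02 ++ (cubesW03 ++ (cubesW04 ++ (cubesW05 ++ (cubesW06 ++ (cubesW07 ++ (cubesW08 ++ (cubesW09 ++ (cubesW10 ++ ([]))))))))))) := by decide +kernel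

theorem as_all : ∀ c ∈ cubes, CubeFalse c := by
  rw [cubes_eq]
  simp only [List.forall_mem_append]
  exact ⟨w00, w01, w02, w03, w04, w05, w06, w07, w08, w09, w10, by simp⟩

end Pool.Agent.NG5c
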